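import Pool.Agent.MP_3ee8cb_gt.DLS.Key
import Pool.Agent.MP_3ee8cb_gt.DND0.Fin

/-! Almost geodesics stay close to geodesics. -/

namespace Pool.Agent.MP_3ee8cb_gt.DLS

open Set Filter Topology DN DZ Real
open scoped RealInnerProductSpace

theorem sq_le_cosh {d : ℝ} (h : 0 ≤ d) : 1 + d ^ 2 / 2 ≤ cosh d := by
  have h1 := cosh_two_mul (d / 2)
  rw [cosh_sq', mul_div_cancel₀ _ two_ne_zero] at h1
  have h2 : d / 2 ≤ sinh (d / 2) := self_le_sinh_iff.2 (by linarith)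
  nlinarith

theorem cosh_add_le (x : ℝ) {δ : ℝ} (h : 0 ≤ δ) : cosh (x + δ) ≤ exp δ * cosh x := by
  have h1 : 0 ≤ sinh δ := sinh_nonneg_iff.2 h
  rw [cosh_add, ← cosh_add_sinh]
  nlinarith [mul_le_mul_of_nonneg_right (sinh_lt_cosh x).le h1]

theorem exp_le_two {x : ℝ} (h0 : 0 ≤ x) (h : x ≤ 1) : exp x ≤ 1 + 2 * x := by
  have := abs_exp_sub_one_le (x := x) (by rwa [abs_of_nonneg h0])
  rw [abs_of_nonneg h0] at this
  linarith [le_abs_self (exp x - 1)]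

variable [Dim] {m : MF} {lg : V × V → V} {dX : V → V → ℝ} {P : Type} [TopologicalSpace P]
  {A : Fam P}

omit [TopologicalSpace P] in
theorem mid (y : YW m lg) (hin : Hin m lg 1) {a c x : V} {R δ η : ℝ} (R1 : 1 ≤ R) (δ0 : 0 ≤ δ)
    (δ1 : δ ≤ 1) (η0 : 0 ≤ η) (hη : 4 * δ ≤ η ^ 2) (h1 : ‖lg (a, x)‖ ≤ R + δ)
    (h2 : ‖lg (c, x)‖ ≤ R + δ) (h3 : 2 * R ≤ ‖lg (a, c)‖) : ∃ (o v : V) (T : ℝ), ‖v‖ = 1 ∧
      1 ≤ T ∧ ‖lg (o, x)‖ ≤ η ∧ (m.Z T (o, v)).1 = c ∧ (m.Z (-T) (o, v)).1 = a := by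
  obtain ⟨u1, u2⟩ := ex_un y (z := a) (x := c) (norm_pos_iff.1 (by linarith))
  obtain ⟨T, hT⟩ : ∃ T, T = ‖lg (a, c)‖ / 2 := ⟨_, rfl⟩
  obtain ⟨z, hz⟩ : ∃ z, z = m.Z T (a, un (lg (a, c))) := ⟨_, rfl⟩
  have z1 : ‖z.2‖ = 1 := by rw [hz, y.jac.norm, u1]
  have e1 : (m.Z T (z.1, z.2)).1 = c := by
    rw [Prod.mk.eta, hz, ← y.ok.add, hT, add_halves, u2]
  have e2 : (m.Z (-T) (z.1, z.2)).1 = a := by
    rw [Prod.mk.eta, hz, ← y.ok.add, neg_add_cancel, y.ok.zero]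
  refine ⟨z.1, z.2, T, z1, by linarith, ?_, e1, e2⟩
  have k := D0.median y.jac y.had hin (T := T) (by linarith) z.1 x z1
  have e3 : (m.Z T (z.1, -z.2)).1 = a := by
    rw [← neg_one_smul ℝ z.2, y.jac.scale, neg_one_mul, e2]
  simp only [one_mul, e1, e3] at k
  have c0 : ∀ t, 0 ≤ t → t ≤ R + δ → cosh t ≤ exp δ * cosh T := fun t t0 t1 => by
    refine le_trans (cosh_le_cosh.2 ?_) (cosh_add_le T δ0)
    rw [abs_of_nonneg t0, abs_of_nonneg (by linarith)]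
    linarith
  have c1 := c0 _ (norm_nonneg _) h1
  have c2 := c0 _ (norm_nonneg _) h2
  have c3 : cosh ‖lg (z.1, x)‖ ≤ exp δ := by
    refine le_of_mul_le_mul_left ?_ (cosh_pos T)
    linarith
  have c4 := sq_le_cosh (norm_nonneg (lg (z.1, x)))
  have c5 := exp_le_two δ0 δ1
  exact (abs_le_of_sq_le_sq' (by linarith) η0).2

/-- The sum of the two functions of `p`. -/
def sm {P : Type} (A : Fam P) (p : P) (z : V) : ℝ := A.β p z + A.β (A.fl p) z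

theorem two (B : BF m lg dX A) (p : P) (o : V) {v : V} (hv : ‖v‖ = 1) (L : ℝ) :
    exp (sm A p o) * ((cosh L - ⟪A.ν p o, v⟫ * sinh L) * (cosh L - ⟪A.ν (A.fl p) o, v⟫ * sinh L))
      ≤ exp (sm A p (m.Z L (o, v)).1) := by
  have h0 : 0 ≤ cosh L - ⟪A.ν (A.fl p) o, v⟫ * sinh L := by
    have h1 : |⟪A.ν (A.fl p) o, v⟫| ≤ 1 :=
      (abs_real_inner_le_norm _ _).trans_eq (by rw [(B.isb _).unit, hv, one_mul])
    have h2 := sinh_lt_cosh L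
    have h3 := sinh_lt_cosh (-L)
    rw [sinh_neg, cosh_neg] at h3
    nlinarith [abs_le.1 h1]
  have := mul_le_mul ((B.isb p).lb o v L hv) ((B.isb (A.fl p)).lb o v L hv)
    (mul_nonneg (exp_pos _).le h0) (exp_pos _).le
  rw [sm, sm, exp_add, exp_add]
  linarith

theorem mor (B : BF m lg dX A) {η : ℝ} (η0 : 0 < η) (η1 : η ≤ 1 / 12)
    (bd : ∃ S, ∀ p, sm A p (A.pr p) ≤ S)
    (H : ∀ p, ∃ (o v : V) (T : ℝ) (p₁ p₂ : P), ‖v‖ = 1 ∧ 1 ≤ T ∧ ‖lg (o, A.pr p)‖ ≤ η ∧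
      sm A p (m.Z T (o, v)).1 = sm A p₁ (A.pr p₁) ∧
      sm A p (m.Z (-T) (o, v)).1 = sm A p₂ (A.pr p₂)) (p₀ : P) :
    sm A p₀ (A.pr p₀) ≤ 15 * η := by
  have : Nonempty P := ⟨p₀⟩
  obtain ⟨S₀, hS₀⟩ := bd
  have ba : BddAbove (range fun p => sm A p (A.pr p)) := ⟨S₀, forall_mem_range.2 hS₀⟩
  obtain ⟨S, hS⟩ : ∃ S, S = ⨆ p, sm A p (A.pr p) := ⟨_, rfl⟩
  have le : ∀ p, sm A p (A.pr p) ≤ S := fun p => hS ▸ le_ciSup ba p
  obtain ⟨p, hp⟩ := exists_lt_of_lt_ciSup (f := fun p => sm A p (A.pr p))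
    (show S - η < ⨆ p, sm A p (A.pr p) by linarith)
  obtain ⟨o, v, T, p₁, p₂, hv, hT, ho, e₁, e₂⟩ := H p
  have s1 : S ≤ sm A p o + 3 * η := by
    have a1 := (B.isb p).lip (A.pr p) o
    have a2 := (B.isb (A.fl p)).lip (A.pr p) o
    rw [D0.symm B.yw.jac B.yw.had] at a1 a2
    simp only [sm] at hp ⊢
    linarith
  have t1 := (two B p o hv T).trans (exp_le_exp.2 ((e₁.le.trans (le _)).trans s1))
  have t2 := (two B p o hv (-T)).trans (exp_le_exp.2 ((e₂.le.trans (le _)).trans s1))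
  rw [cosh_neg, sinh_neg] at t2
  rw [exp_add] at t1 t2
  replace t1 := le_of_mul_le_mul_left t1 (exp_pos _)
  replace t2 := le_of_mul_le_mul_left t2 (exp_pos _)
  have k := key B (B.flp p).1.symm o
  have r1 : ⟪A.ν p o, A.ν (A.fl p) o⟫ ≤ 1 + 2 * (⟪A.ν p o, v⟫ * ⟪A.ν (A.fl p) o, v⟫) := by
    have n1 : ‖A.ν (A.fl p) o - (2 * ⟪A.ν (A.fl p) o, v⟫) • v‖ ^ 2 = 1 := by
      rw [norm_sub_sq_real, real_inner_smul_right, norm_smul, hv, (B.isb _).unit, mul_one,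
        norm_eq_abs, sq_abs]
      ring
    have n2 := real_inner_le_norm (A.ν p o) (A.ν (A.fl p) o - (2 * ⟪A.ν (A.fl p) o, v⟫) • v)
    rw [(pow_eq_one_iff_of_nonneg (norm_nonneg _) two_ne_zero).1 n1, (B.isb _).unit,
      inner_sub_right, real_inner_smul_right] at n2
    linarith
  have a1 : |⟪A.ν p o, v⟫| ≤ 1 :=
    (abs_real_inner_le_norm _ _).trans_eq (by rw [(B.isb _).unit, hv, one_mul])
  have a2 : |⟪A.ν (A.fl p) o, v⟫| ≤ 1 :=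
    (abs_real_inner_le_norm _ _).trans_eq (by rw [(B.isb _).unit, hv, one_mul])
  have a3 : 0 ≤ 1 + ⟪A.ν p o, v⟫ * ⟪A.ν (A.fl p) o, v⟫ := by
    have := (abs_le.1 ((abs_mul _ _).trans_le (mul_le_one₀ a1 (abs_nonneg _) a2))).1
    linarith
  have a4 : 1 ≤ sinh T ^ 2 :=
    one_le_pow₀ (hT.trans (self_le_sinh_iff.2 (by linarith)))
  have a5 := mul_le_mul_of_nonneg_left a4 a3
  have a6 := cosh_sq' T
  have a7 := exp_le_two (x := 3 * η) (by linarith) (by linarith)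
  have a8 : 1 + ⟪A.ν p o, v⟫ * ⟪A.ν (A.fl p) o, v⟫ ≤ 6 * η := by nlinarith
  have a9 : exp (sm A p o) ≤ exp (12 * η) := by
    have b1 := add_one_le_exp (12 * η)
    have b2 := exp_pos (sm A p o)
    refine le_of_mul_le_mul_right ?_ (show 0 < 1 - 6 * η by linarith)
    rw [← sm] at k
    nlinarith
  linarith [exp_le_exp.1 a9, le p₀]

end Pool.Agent.MP_3ee8cb_gt.DLS
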