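import Pool.Agent.MP_3ee8cb_gt.DLS.Stab
import Pool.Agent.MP_3ee8cb_gt.DZ.RB1
import Pool.Agent.MP_3ee8cb_gt.DZ.RExa
import Pool.Agent.MP_3ee8cb_gt.DZS.Scale
import Pool.Agent.MP_3ee8cb_gt.DNFL.All
import Pool.Agent.MP_3ee8cb_gt.DN.Fin
import Pool.Agent.MP_3ee8cb_gt.CR.RUC

/-! Local rigidity from rigidity for small fronts. -/

namespace Pool.Agent.MP_3ee8cb_gt.DLS

open Set Filter Topology DN DZ Real
open CR (Met UT Riem dd seg ng bus tm scale_m scale_app)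
open LV (QP CJ)
open scoped RealInnerProductSpace

theorem seg_le {n : ℕ} {g h : Met n} (hg : Riem g) (hh : Riem h) {c : ℝ} (hc : 1 ≤ c)
    (H : ∀ x v, g x v v ≤ c * h x v v) (a b : CR.E n) : seg g a b ≤ c * seg h a b := by
  have ct : ∀ {g : Met n}, Riem g → Continuous fun t : ℝ => √(g (a + t • (b - a)) (b - a) (b - a)) :=
    fun hg => (((hg.smooth.continuous.comp (by fun_prop)).clm_apply continuous_const).clm_apply
      continuous_const).sqrt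
  rw [seg, seg, ← intervalIntegral.integral_const_mul]
  refine intervalIntegral.integral_mono_on zero_le_one ((ct hg).intervalIntegrable _ _)
    (((ct hh).const_mul c).intervalIntegrable _ _) fun t _ => ?_
  refine (sqrt_le_sqrt (H _ _)).trans ?_
  rw [sqrt_mul (by linarith)]
  exact mul_le_mul_of_nonneg_right (sqrt_le_iff.2 ⟨by linarith, by nlinarith⟩) (sqrt_nonneg _)

theorem dd_le {n : ℕ} {g h : Met n} (hg : Riem g) (hh : Riem h) (dg : CR.DBP g) (dh : CR.DBP h)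
    {c : ℝ} (hc : 1 ≤ c) (H : ∀ x v, g x v v ≤ c * h x v v) (x y : CR.E n) :
    dd g x y ≤ c * dd h x y := by
  have c0 : 0 < c := by linarith
  have := dh.test (fun z => dd g x z / c) (fun a b => by
    rw [← sub_div, div_le_iff₀' c0]
    linarith [dg.tri x a b, dg.le_seg a b, seg_le hg hh hc H a b]) x y
  rw [dg.refl, zero_div, sub_zero, div_le_iff₀' c0] at this
  exact this

variable [Dim]

theorem bdd {g h : Met dm} {Γ : Type} [Group Γ] [MulAction Γ V] {Φ : ℝ → UT g → UT g}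
    {Ψ : ℝ → UT h → UT h} {F : UT g ≃ₜ UT h} (qg : QP g Γ Φ) (qh : QP h Γ Ψ)
    (j : CJ g h Φ Ψ (MulEquiv.refl Γ) F) : ∃ D, ∀ p, dd h p.1.1 (F p).1.1 ≤ D := by
  obtain ⟨K, hK, cov⟩ := qg.rp.deck.cpt
  have c : Continuous fun p : UT g => dd h p.1.1 (F p).1.1 :=
    qh.rp.db.cont.comp (f := fun p : UT g => (p.1.1, (F p).1.1)) (by fun_prop)
  obtain ⟨D, hD⟩ := (CR.uc_cpt qg.rp.riem hK).bddAbove_image c.continuousOn
  refine ⟨D, fun p => ?_⟩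
  obtain ⟨γ, hγ⟩ := cov p.1.1
  have u : g (tm γ p.1).1 (tm γ p.1).2 (tm γ p.1).2 = 1 := (qg.rp.deck.iso γ _ _ _).trans p.2
  have e := j.equi γ p ⟨tm γ p.1, u⟩ rfl
  have := hD (mem_image_of_mem _ (show (⟨tm γ p.1, u⟩ : UT g) ∈ {p : UT g | p.1.1 ∈ K} from hγ))
  rw [e] at this
  exact (qh.rp.inv γ _ _).symm.trans_le this

/-- Rigidity when all fronts are small. -/
def Core (hi r : ℝ) : Prop := On2 fun g h _ C' _ _ _ _ _ _ _ Ψ ρ F => Pin h C' 1 hi →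
  (∀ p, F (ng p) = ng (F p)) → (∀ x, ∃ y, ∀ p : UT g, p.1.1 = x → |bus h Ψ (F p) y| ≤ r) →
  Iso g h ρ

/-- Local rigidity. -/
def MainL (a hi ε : ℝ) : Prop := On2 fun g h _ C' _ _ _ _ _ _ _ _ ρ F => Pin h C' a hi →
  (∀ x v, g x v v ≤ (1 + ε) * h x v v) → (∀ x v, h x v v ≤ (1 + ε) * g x v v) →
  (∃ D, ∀ p, dd h p.1.1 (F p).1.1 ≤ D) → Iso g h ρ

theorem mainL_of {hi r : ℝ} (h1 : 1 ≤ hi) (hr : 0 < r) (core : Core hi r) :
    ∃ ε, 0 < ε ∧ MainL 1 hi ε := by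
  obtain ⟨ε, ε0, st⟩ := sSTAB hi r h1 hr
  refine ⟨ε, ε0, ?_⟩
  intro g h C C' Γ Λ _ _ _ _ Φ Ψ ρ F₀ qg qh cg ch dΓ dΛ cj₀ kh l1 l2 ⟨D, hD⟩
  have kh' : TB.CurvLe h 1 := ⟨C', ch, fun x u v => by simpa using (kh x u v).2⟩
  obtain ⟨m, o, l⟩ := sFRM h C' Λ Ψ qh ch
  have j := sJAC m o
  obtain ⟨lg, hl, hd⟩ := DNFL.had h C' Λ Ψ qh ch m 1 o j l one_pos kh'
  obtain ⟨-, s, F, e, cj, fp⟩ :=
    DNFL.flp g h C C' Γ Λ Φ Ψ ρ F₀ qg qh cg ch dΓ dΛ cj₀ 1 one_pos kh'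
  have cs : ∀ u v : V, 0 ≤ ‖u‖ ^ 2 * ‖v‖ ^ 2 - ⟪u, v⟫ ^ 2 := fun u v => by
    have := real_inner_mul_inner_self_le u v
    rw [real_inner_self_eq_norm_sq, real_inner_self_eq_norm_sq] at this
    nlinarith
  have u1 : m.Up 1 := fun y u v => by
    have := (kh y (m.R y u) (m.R y v)).2
    rw [(l.sec o y u v).1, ← (l.sec o y u v).2]
    linarith
  have d1 : m.Dn hi := fun y u v => by
    have := (kh y (m.R y u) (m.R y v)).1
    rw [(l.sec o y u v).1, ← (l.sec o y u v).2]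
    linarith
  have u0 : m.Up 0 := fun y u v =>
    le_trans (mul_le_mul_of_nonneg_right zero_le_one (cs u v)) (u1 y u v)
  have yw : YW m lg := ⟨o, j, hl, u0⟩
  have as := sASY h C' Λ Ψ qh ch kh'
  obtain ⟨ν, hν⟩ := sEXA h C' Λ Ψ qh ch m lg kh' as yw l hd
  have nb : NB h C' Ψ m lg ν := ⟨kh', yw, l, hd, as, sBC h C' Λ Ψ qh ch kh', fun w => (hν w).1,
    fun w => sB1 m lg _ _ yw (hν w).1, fun w => (hν w).2⟩
  obtain ⟨mh, -⟩ := RMOV.kit qg qh cj kh'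
  have S := st g h C C' Γ Λ Φ Ψ ρ F qg qh cg ch dΓ dΛ cj m lg ν nb u1 d1 fp
    (dd_le qh.rp.riem qg.rp.riem qh.rp.db qg.rp.db (by linarith) l2)
    (dd_le qg.rp.riem qh.rp.riem qg.rp.db qh.rp.db (by linarith) l1) ⟨D + |0 - s|, fun p => by
      have a1 := mh (F₀ p) 0 s
      rw [qh.rp.flow.zero, ← e] at a1
      linarith [qh.rp.db.tri p.1.1 (F₀ p).1.1 (F p).1.1, hD p]⟩
  exact core g h C C' Γ Λ Φ Ψ ρ F qg qh cg ch dΓ dΛ cj kh fp
    fun x => ⟨x, fun p hp => hp ▸ S p⟩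

theorem scaleL {k ε : ℝ} (A : MainL 1 k ε) {g h : Met dm} {C C' : TB.Chr dm} {Γ : Type} [Group Γ]
    [MulAction Γ V] {Φ : ℝ → UT g → UT g} {Ψ : ℝ → UT h → UT h} {F : UT g ≃ₜ UT h}
    (qg : QP g Γ Φ) (qh : QP h Γ Ψ) (c : TB.IsChr g C) (c' : TB.IsChr h C') (d : D2 Γ)
    (j : CJ g h Φ Ψ (MulEquiv.refl Γ) F) {a hi : ℝ} (ha : 0 < a) (hb : hi ≤ k * a ^ 2)
    (K : Pin h C' (a ^ 2) hi) (l1 : ∀ x v, g x v v ≤ (1 + ε) * h x v v)
    (l2 : ∀ x v, h x v v ≤ (1 + ε) * g x v v) : Iso g h (MulEquiv.refl Γ) := by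
  have hc : a⁻¹ ≠ 0 := inv_ne_zero ha.ne'
  have e : (a⁻¹ * a⁻¹)⁻¹ = a ^ 2 := by rw [mul_inv, inv_inv, sq]
  have a2 : 0 < a ^ 2 := pow_pos ha 2
  obtain ⟨G, h1, h2, h3, h4⟩ := A (scale_m a⁻¹ g) (scale_m a⁻¹ h) C C' Γ Γ _ _ _ _ (DZS.qp hc qg)
    (DZS.qp hc qh) (DZS.chr _ c) (DZS.chr _ c') d d (DZS.cj hc j) (fun x u v => by
      simp only [scale_app, e]
      have q := sub_nonneg.2 (TB.mod_cs qh.rp.riem x u v)
      have k1 := mul_le_mul_of_nonneg_left (K x u v).1 a2.le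
      have k2 := mul_le_mul_of_nonneg_left (K x u v).2 a2.le
      have k3 := mul_le_mul_of_nonneg_left (mul_le_mul_of_nonneg_right hb q) a2.le
      constructor
      · linarith
      · linarith) (fun x v => by
      rw [scale_app, scale_app, e]
      linarith [mul_le_mul_of_nonneg_left (l1 x v) a2.le]) (fun x v => by
      rw [scale_app, scale_app, e]
      linarith [mul_le_mul_of_nonneg_left (l2 x v) a2.le])
    (bdd (DZS.qp hc qg) (DZS.qp hc qh) (DZS.cj hc j))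
  refine ⟨G, h1, h2, fun x u v => ?_, h4⟩
  have := h3 x u v
  rw [scale_app, scale_app, e] at this
  exact mul_left_cancel₀ a2.ne' this

end Pool.Agent.MP_3ee8cb_gt.DLS
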