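import Pool.Agent.MP_3ee8cb_gt.DLS.Top
import Pool.Agent.MP_3ee8cb_gt.SLN.Link
import Pool.Agent.MP_3ee8cb_gt.SL3.Defs

/-! Local rigidity in the statement layer. -/

namespace Pool.Agent.MP_3ee8cb_gt.DLS

open DN (Dim dm)
open Pool.Agent.MP_3ee8cb_gt.SL

theorem finL [Dim] {k k' ε : ℝ} (hk : k ≤ k') (A : MainL 1 k' ε) (g h : Met dm) (Γ : Type)
    [Group Γ] [MulAction Γ (E dm)] (Φ : ℝ → UT g → UT g) (Ψ : ℝ → UT h → UT h)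
    (F : UT g ≃ₜ UT h) (hg : Riem g) (hh : Riem h) (dg : Deck g Γ) (dh : Deck h Γ)
    (sh : SL3.Smooth h Γ) (fg : IsFlow g Φ) (fh : IsFlow h Ψ)
    (hf : ∀ t p, F (Φ t p) = Ψ t (F p))
    (he : ∀ (γ : Γ) (p q : UT g), q.1 = tm γ p.1 → (F q).1 = tm γ (F p).1)
    (hN : SL3.Pinched h k) (l1 : ∀ x v, g x v v ≤ (1 + ε) * h x v v)
    (l2 : ∀ x v, h x v v ≤ (1 + ε) * g x v v) : SL3.Isometric g h Γ Γ := by
  obtain ⟨g, rfl, rg⟩ := link_riem hg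
  obtain ⟨h, rfl, rh⟩ := link_riem hh
  have n0 : 3 ≤ dm := Nat.le_add_left 3 _
  have qg := LV.all_qp (by omega) rg (link_deck dg) (link_flow rg fg)
  have qh := LV.all_qp (by omega) rh (link_deck dh) (link_flow rh fh)
  obtain ⟨a, b, ha, hb, C', c', K⟩ := SLN.link_pin rh hN
  obtain ⟨C, c⟩ := DZS.exists_chr rg
  obtain ⟨G, hG⟩ := scaleL A qg qh c c' (sh.act 2) (F := F) ⟨hf, he⟩ ha
    (hb.le.trans (mul_le_mul_of_nonneg_right hk (sq_nonneg a))) (fun x u v => (K x u v).symm) l1 l2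
  exact ⟨G, MulEquiv.refl Γ, hG⟩

/-- Local rigidity, every dimension, every pinching constant. -/
theorem allL (A : ∀ [Dim] (hi : ℝ), 1 ≤ hi → ∃ r, 0 < r ∧ Core hi r) (n : ℕ) (hn : 3 ≤ n) (k : ℝ) :
    ∃ ε : ℝ, 0 < ε ∧ ∀ (g h : Met n) (Γ : Type) [Group Γ] [MulAction Γ (E n)]
      (Φ : ℝ → UT g → UT g) (Ψ : ℝ → UT h → UT h) (F : UT g ≃ₜ UT h), Riem g → Riem h →
      Deck g Γ → Deck h Γ → SL3.Smooth h Γ → IsFlow g Φ → IsFlow h Ψ →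
      (∀ t p, F (Φ t p) = Ψ t (F p)) →
      (∀ (γ : Γ) (p q : UT g), q.1 = tm γ p.1 → (F q).1 = tm γ (F p).1) → SL3.Pinched h k →
      (∀ x v, g x v v ≤ (1 + ε) * h x v v) → (∀ x v, h x v v ≤ (1 + ε) * g x v v) →
      SL3.Isometric g h Γ Γ := by
  obtain ⟨j, rfl⟩ : ∃ j, n = j + 3 := ⟨n - 3, by omega⟩
  obtain ⟨r, hr, B⟩ := @A ⟨j⟩ (max k 1) (le_max_right _ _)
  obtain ⟨ε, hε, M⟩ := @mainL_of ⟨j⟩ _ _ (le_max_right _ _) hr B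
  exact ⟨ε, hε, @finL ⟨j⟩ k _ ε (le_max_left _ _) M⟩

end Pool.Agent.MP_3ee8cb_gt.DLS
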