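import Pool.Agent.MP_3ee8cb_gt.DZ.Spec

/-! The two direction inequality and the chain along a great circle. -/

namespace Pool.Agent.MP_3ee8cb_gt.DLS

open Set Filter Topology DN DZ Real
open scoped RealInnerProductSpace

variable [Dim] {m : MF} {lg : V × V → V} {dX : V → V → ℝ} {P : Type} [TopologicalSpace P]
  {A : Fam P}

omit [TopologicalSpace P] in
theorem ex_un (y : YW m lg) {z x : V} (h : lg (z, x) ≠ 0) :
    ‖un (lg (z, x))‖ = 1 ∧ (m.Z ‖lg (z, x)‖ (z, un (lg (z, x)))).1 = x := by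
  have h0 := norm_ne_zero_iff.2 h
  refine ⟨by rw [un, norm_smul, norm_inv, norm_norm, inv_mul_cancel₀ h0], ?_⟩
  have h3 := y.had.ex z x
  have h2 : lg (z, x) = ‖lg (z, x)‖ • un (lg (z, x)) := by
    rw [un, smul_smul, mul_inv_cancel₀ h0, one_smul]
  rw [h2, y.jac.scale, mul_one] at h3
  exact h3

theorem key (B : BF m lg dX A) {p q : P} (h : A.pr p = A.pr q) (z : V) :
    exp (A.β p z + A.β q z) * (1 - ⟪A.ν p z, A.ν q z⟫) ≤ 2 := by
  obtain ⟨σ, hσ⟩ : ∃ σ : ℝ → V, σ = fun T => (m.Z T (A.ft q, A.ν q (A.ft q))).1 := ⟨_, rfl⟩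
  have d1 : Tendsto (fun T => un (lg (z, σ T))) atTop (𝓝 (A.ν q z)) := hσ ▸ (B.b1 q).dir _ z
  have d2 : Tendsto (fun T => ‖lg (z, σ T)‖ - T) atTop (𝓝 (A.β q z)) := by
    have := (B.b1 q).lim (A.ft q) z
    rw [B.foot, sub_zero] at this
    exact hσ ▸ this
  have d3 : Tendsto (fun T => exp (A.β p z + (‖lg (z, σ T)‖ - T)) *
      (1 - ⟪A.ν p z, un (lg (z, σ T))⟫)) atTop
      (𝓝 (exp (A.β p z + A.β q z) * (1 - ⟪A.ν p z, A.ν q z⟫))) :=
    (d2.const_add _).rexp.mul ((tendsto_const_nhds.inner d1).const_sub 1)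
  have d4 : ∀ e, 0 < e → exp (A.β p z + A.β q z) * (1 - ⟪A.ν p z, A.ν q z⟫) ≤ 2 * exp e := by
    intro e he
    refine le_of_tendsto d3 ?_
    filter_upwards [B.gr p q h e he, d2.eventually_const_lt (sub_one_lt _),
      eventually_ge_atTop (1 - A.β q z)] with T h1 h2 h3
    have h0 : lg (z, σ T) ≠ 0 := norm_pos_iff.1 (by linarith)
    obtain ⟨u1, u2⟩ := ex_un B.yw h0
    have h4 := (B.isb p).lb z _ ‖lg (z, σ T)‖ u1
    rw [u2] at h4
    have h5 : exp (A.β p (σ T)) ≤ exp (T + e) := exp_le_exp.2 (hσ ▸ h1)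
    have h6 : |⟪A.ν p z, un (lg (z, σ T))⟫| ≤ 1 :=
      (abs_real_inner_le_norm _ _).trans_eq (by rw [(B.isb p).unit, u1, one_mul])
    generalize ⟪A.ν p z, un (lg (z, σ T))⟫ = c at h4 h6 ⊢
    generalize ‖lg (z, σ T)‖ = L at h4 ⊢
    rw [cosh_eq, sinh_eq] at h4
    have h7 : 0 ≤ exp (A.β p z) * (exp (-L) * (1 + c)) :=
      mul_nonneg (exp_pos _).le (mul_nonneg (exp_pos _).le (by linarith [(abs_le.1 h6).1]))
    rw [exp_add T] at h5
    rw [exp_add, exp_sub]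
    refine le_of_mul_le_mul_left ?_ (exp_pos T)
    have h8 : exp T * (exp (A.β p z) * (exp L / exp T) * (1 - c)) =
        exp (A.β p z) * exp L * (1 - c) := by field_simp
    rw [h8]
    nlinarith
  have c1 : Tendsto (fun e : ℝ => 2 * exp e) (𝓝[>] 0) (𝓝 (2 * exp 0)) :=
    ((continuous_const.mul continuous_exp).tendsto 0).mono_left nhdsWithin_le_nhds
  rw [exp_zero, mul_one] at c1
  exact ge_of_tendsto c1 (eventually_nhdsWithin_of_forall d4)

theorem step (B : BF m lg dX A) (G : BG lg A) {p q : P} (h : A.pr p = A.pr q) {z : V} {θ : ℝ}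
    (θ1 : θ ^ 2 ≤ 1 / 2) (h1 : ‖A.ν q z + A.ν (A.fl q) z‖ ≤ θ) (h2 : ‖A.ν p z - A.ν q z‖ ≤ θ) :
    A.β p z - A.β q z ≤ 2 * θ ^ 2 := by
  have k := key B (h.trans (B.flp q).1.symm) z
  have a1 : ‖A.ν p z + A.ν (A.fl q) z‖ ≤ 2 * θ := by
    have := norm_add_le (A.ν p z - A.ν q z) (A.ν q z + A.ν (A.fl q) z)
    rw [← add_assoc, sub_add_cancel] at this
    linarith
  have a2 := pow_le_pow_left₀ (norm_nonneg _) a1 2
  rw [norm_add_sq_real, (B.isb _).unit, (B.isb _).unit] at a2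
  have a3 := add_one_le_exp (2 * θ ^ 2)
  have a4 := exp_pos (A.β p z + A.β (A.fl q) z)
  have a5 : exp (A.β p z + A.β (A.fl q) z) ≤ exp (2 * θ ^ 2) := by
    refine le_of_mul_le_mul_right ?_ (show 0 < 1 - θ ^ 2 by linarith)
    nlinarith [sq_nonneg θ]
  linarith [exp_le_exp.1 a5, G.opp q z]

omit [TopologicalSpace P] in
theorem perp_ex (w : V) : ∃ e : V, ‖e‖ = 1 ∧ ⟪w, e⟫ = 0 := by
  obtain ⟨e, he, h0⟩ : ∃ e ∈ (ℝ ∙ w)ᗮ, e ≠ 0 := by
    refine Submodule.exists_mem_ne_zero_of_ne_bot fun h => ?_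
    have h1 := Submodule.finrank_add_finrank_orthogonal (ℝ ∙ w)
    have h2 : Module.finrank ℝ (ℝ ∙ w) ≤ 1 := by
      simpa using finrank_span_le_card (R := ℝ) ({w} : Set V)
    rw [h, finrank_bot, finrank_euclideanSpace_fin] at h1
    simp only [dm] at h1
    omega
  have n0 := norm_ne_zero_iff.2 h0
  exact ⟨‖e‖⁻¹ • e, by rw [norm_smul, norm_inv, norm_norm, inv_mul_cancel₀ n0], by
    rw [real_inner_smul_right, Submodule.mem_orthogonal_singleton_iff_inner_right.1 he, mul_zero]⟩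

theorem chain (B : BF m lg dX A) (G : BG lg A) {x z : V} {N : ℕ} (hN : 0 < N)
    (θ1 : (π / N) ^ 2 ≤ 1 / 2) (h1 : ∀ q, A.pr q = x → ‖A.ν q z + A.ν (A.fl q) z‖ ≤ π / N)
    (p : P) (hp : A.pr p = x) : A.β p z ≤ (π / N) ^ 2 * N := by
  obtain ⟨e, e1, e2⟩ := perp_ex (A.ν p z)
  have w1 := (B.isb p).unit z
  obtain ⟨w, hw⟩ : ∃ w, w = A.ν p z := ⟨_, rfl⟩
  rw [← hw] at e2 w1
  have nr : ∀ s t : ℝ, ‖s • w + t • e‖ ^ 2 = s ^ 2 + t ^ 2 := fun s t => by
    rw [norm_add_sq_real, real_inner_smul_left, real_inner_smul_right, e2, norm_smul, norm_smul,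
      w1, e1, mul_one, mul_one, norm_eq_abs, norm_eq_abs, sq_abs, sq_abs]
    ring
  obtain ⟨θ, hθ⟩ : ∃ θ : ℝ, θ = π / N := ⟨_, rfl⟩
  have N0 : (0 : ℝ) < N := Nat.cast_pos.2 hN
  have θ0 : 0 ≤ θ := by rw [hθ]; positivity
  rw [← hθ] at θ1 h1 ⊢
  have un1 : ∀ s : ℝ, ‖cos s • w + sin s • e‖ = 1 := fun s => by
    have := nr (cos s) (sin s)
    rw [cos_sq_add_sin_sq] at this
    exact (pow_eq_one_iff_of_nonneg (norm_nonneg _) two_ne_zero).1 this
  have ind : ∀ (k : ℕ) q, A.pr q = x → A.ν q z = cos (k * θ) • w + sin (k * θ) • e →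
      A.β p z - A.β q z ≤ 2 * θ ^ 2 * k := by
    intro k
    induction k with
    | zero =>
      intro q hq e0
      rw [G.same p q z (hp.trans hq.symm) (by rw [e0, ← hw]; simp)]
      simp
    | succ k ih =>
      intro q hq e0
      obtain ⟨r, hr, er⟩ := G.onto x z _ (un1 (k * θ))
      have s1 := step B G (hr.trans hq.symm) θ1 (h1 q hq) (by
        refine abs_le_of_sq_le_sq' ?_ θ0 |>.2
        have e3 : A.ν r z - A.ν q z = (cos (k * θ) - cos ((k + 1 : ℕ) * θ)) • w +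
            (sin (k * θ) - sin ((k + 1 : ℕ) * θ)) • e := by
          rw [er, e0]
          module
        have e4 := one_sub_sq_div_two_le_cos (x := ((k + 1 : ℕ) : ℝ) * θ - k * θ)
        rw [cos_sub] at e4
        have e5 : ((k + 1 : ℕ) : ℝ) * θ - k * θ = θ := by push_cast; ring
        rw [e5] at e4
        rw [e3, nr]
        nlinarith [cos_sq_add_sin_sq (k * θ), cos_sq_add_sin_sq ((k + 1 : ℕ) * θ)])
      have s2 := ih r hr er
      push_cast
      linarith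
  obtain ⟨q, hq, eq⟩ := G.onto x z _ (un1 (N * θ))
  have s1 := ind N q hq eq
  have s2 := key B (hp.trans hq.symm) z
  have e6 : (N : ℝ) * θ = π := by rw [hθ]; field_simp
  rw [eq, e6, cos_pi, sin_pi, zero_smul, add_zero, real_inner_smul_right, ← hw,
    real_inner_self_eq_norm_sq, w1] at s2
  have s3 : A.β p z + A.β q z ≤ 0 := exp_le_one_iff.1 (by linarith)
  linarith

end Pool.Agent.MP_3ee8cb_gt.DLS
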