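import Pool.Agent.MP_3ee8cb_gt.DZ.Spec
import Pool.Agent.MP_3ee8cb_gt.PXH.Hess
import Pool.Agent.MP_3ee8cb_gt.DZH.Jac

/-! Busemann functions are semiconcave under a lower curvature bound. -/

namespace Pool.Agent.MP_3ee8cb_gt.DLS

open Set DN DZ Real
open scoped RealInnerProductSpace

variable [Dim] {m : MF} {lg : V × V → V} {hi : ℝ}

theorem hess_perp (y : YW m lg) (hu : m.Up 1) (hd : m.Dn hi) (h1 : 1 ≤ hi) {z q e : V}
    (h0 : lg (z, q) ≠ 0) (h2 : ‖lg (z, q)‖ ≤ 2) (he : ⟪e, lg (z, q)⟫ = 0) :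
    ⟪PXH.H m lg z q e, e⟫ ≤ (2 * hi + 1) * ‖e‖ ^ 2 := by
  have h := (abs_le.1 (PXH.up y.ok y.jac hu hd h1 y.had he he
    (PXH.mod_sinh (norm_nonneg _)))).2
  simp only [sub_zero, mul_one, sub_self, mul_zero, cosh_zero, real_inner_self_eq_norm_sq] at h
  have dp : 0 < ‖lg (z, q)‖ := norm_pos_iff.2 h0
  generalize ‖lg (z, q)‖ = d at h dp h2
  have s1 : d ≤ sinh d := self_le_sinh_iff.2 dp.le
  have s2 : cosh d - sinh d ≤ 1 := by
    rw [cosh_sub_sinh]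
    exact exp_le_one_iff.2 (by linarith)
  have sp : 0 < sinh d := dp.trans_le s1
  have e0 := sq_nonneg ‖e‖
  have a1 : d * cosh d ≤ 3 * sinh d := by nlinarith
  have a2 : d * cosh d - d ≤ 2 * sinh d := by nlinarith
  have a3 := mul_le_mul_of_nonneg_left a2 (mul_nonneg (sub_nonneg.2 h1) e0)
  have a4 := mul_le_mul_of_nonneg_right a1 e0
  refine le_of_mul_le_mul_left ?_ sp
  nlinarith

theorem hess (y : YW m lg) (hu : m.Up 1) (hd : m.Dn hi) (h1 : 1 ≤ hi) {z q v : V}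
    (h2 : ‖lg (z, q)‖ ≤ 2) (hv : ‖v‖ = 1) : ⟪PXH.H m lg z q v, v⟫ ≤ 2 * hi + 1 := by
  by_cases h0 : lg (z, q) = 0
  · rw [PXH.H_zero y.ok y.jac hu hd h1 y.had h0, real_inner_self_eq_norm_sq, hv]
    linarith
  obtain ⟨c, hc⟩ : ∃ c : ℝ, c = ⟪v, lg (z, q)⟫ / ‖lg (z, q)‖ ^ 2 := ⟨_, rfl⟩
  obtain ⟨e, he⟩ : ∃ e, e = v - c • lg (z, q) := ⟨_, rfl⟩
  have hp : ⟪e, lg (z, q)⟫ = 0 := by
    rw [he, inner_sub_left, real_inner_smul_left, real_inner_self_eq_norm_sq, hc,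
      div_mul_cancel₀ _ (pow_ne_zero 2 (norm_ne_zero_iff.2 h0)), sub_self]
  have ev : v = e + c • lg (z, q) := by rw [he, sub_add_cancel]
  have n1 : ‖e‖ ^ 2 + c ^ 2 * ‖lg (z, q)‖ ^ 2 = 1 := by
    have := norm_add_sq_real e (c • lg (z, q))
    rw [← ev, hv, real_inner_smul_right, hp, norm_smul, mul_pow, norm_eq_abs, sq_abs] at this
    linarith
  have k := hess_perp y hu hd h1 h0 h2 hp
  have k2 : 0 ≤ c ^ 2 * ‖lg (z, q)‖ ^ 2 := by positivity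
  rw [ev, PXH.H_add, PXH.H_smul, PXH.H_rad y.ok y.jac y.had]
  simp only [inner_add_left, inner_add_right, real_inner_smul_left, real_inner_smul_right,
    PXH.rad y.ok y.jac y.had, hp, real_inner_comm e (lg (z, q)), real_inner_self_eq_norm_sq,
    norm_smul, mul_pow, norm_eq_abs, sq_abs]
  nlinarith

theorem dlg (y : YW m lg) (q : V) (z : V × V) (t : ℝ) :
    HasDerivAt (fun s => lg ((m.Z s z).1, q)) (-PXH.H m lg (m.Z t z).1 q (m.Z t z).2 -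
      m.w z t (lg ((m.Z t z).1, q))) t :=
  ((y.had.c1.differentiable one_ne_zero _).hasFDerivAt.comp_hasDerivAt t
    ((DNTR.ode1 y.ok z t).prodMk (hasDerivAt_const t q))).congr_deriv (by
      rw [PXH.H_eq, neg_neg, MF.w, add_sub_cancel_right])

variable {b b' : V → ℝ} {ν ν' : V → V}

theorem semi (y : YW m lg) (hu : m.Up 1) (hd : m.Dn hi) (h1 : 1 ≤ hi) (h : IsB m lg b ν)
    (x : V) {v : V} (hv : ‖v‖ = 1) {t : ℝ} (ht : t ∈ Icc (0 : ℝ) 1) :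
    b (m.Z t (x, v)).1 ≤ b x - t * ⟪ν x, v⟫ + (2 * hi + 1) / 2 * t ^ 2 := by
  obtain ⟨q, hq⟩ : ∃ q, q = (m.Z 1 (x, ν x)).1 := ⟨_, rfl⟩
  have l0 : lg (x, q) = ν x := hq ▸ y.had.xe x (ν x)
  have vel : ∀ s, HasDerivAt (fun s => (m.Z s (x, v)).2)
      (0 - m.w (x, v) s (m.Z s (x, v)).2) s := fun s => by
    rw [zero_sub]
    exact DNWI.vel_deriv y.ok (x, v) s
  have g1 := fun s => (DZH.cov_inner y.ok (x, v) (dlg y q (x, v) s) (vel s)).neg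
  have bd : ∀ s ∈ Icc (0 : ℝ) 1, ‖lg ((m.Z s (x, v)).1, q)‖ ≤ 2 := fun s hs => by
    have a1 := y.had.tri (m.Z s (x, v)).1 x q
    have a2 := DNWI.lg_geo y.ok y.jac y.had (x, v) s 0
    rw [y.ok.zero] at a2
    rw [a2, l0, h.unit, norm_smul, y.jac.norm, hv, zero_sub, norm_neg,
      norm_of_nonneg hs.1] at a1
    linarith [hs.2]
  have g2 : ∀ s ∈ Icc (0 : ℝ) 1, -⟪lg ((m.Z s (x, v)).1, q), (m.Z s (x, v)).2⟫ ≤
      -⟪ν x, v⟫ + (2 * hi + 1) * s := fun s hs => by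
    have := DNTR.le_of_der (c := 2 * hi + 1) g1 (fun r hr => by
      have := hess y hu hd h1 (bd r hr) ((y.jac.norm r (x, v)).trans hv)
      rw [inner_zero_right, inner_neg_left]
      linarith) hs
    simpa only [Pi.neg_apply, y.ok.zero, l0] using this
  have g3 := DNTR.le_of_der (c := -⟪ν x, v⟫)
    (fun s => ((DZH.cov_sq y.ok (x, v) (dlg y q (x, v) s)).div_const 2).sub
      ((hasDerivAt_pow 2 s).const_mul ((2 * hi + 1) / 2))) (fun s hs => by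
      have := g2 s hs
      rw [inner_neg_right, real_inner_comm, PXH.rad y.ok y.jac y.had, real_inner_comm]
      simp only [Nat.cast_ofNat, Nat.add_one_sub_one, pow_one]
      linarith) ht
  simp only [Pi.sub_apply, y.ok.zero, l0, h.unit] at g3
  have g4 := h.lip (m.Z t (x, v)).1 q
  have g5 := h.ray x 1
  rw [← hq] at g5
  nlinarith [sq_nonneg (‖lg ((m.Z t (x, v)).1, q)‖ - 1)]

theorem grad (y : YW m lg) (hu : m.Up 1) (hd : m.Dn hi) (h1 : 1 ≤ hi) (h : IsB m lg b ν)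
    (h' : IsB m lg b' ν') (h0 : ∀ z, 0 ≤ b z + b' z) (x : V) {η : ℝ} (η0 : 0 < η) (η1 : η ≤ 1)
    (hs : b x + b' x ≤ η ^ 2 / (4 * (2 * hi + 1))) : ‖ν x + ν' x‖ ≤ η := by
  by_cases hz : ν x + ν' x = 0
  · rw [hz, norm_zero]
    exact η0.le
  have n0 := norm_ne_zero_iff.2 hz
  have hv : ‖‖ν x + ν' x‖⁻¹ • (ν x + ν' x)‖ = 1 := by
    rw [norm_smul, norm_inv, norm_norm, inv_mul_cancel₀ n0]
  have e : ⟪ν x, ‖ν x + ν' x‖⁻¹ • (ν x + ν' x)⟫ + ⟪ν' x, ‖ν x + ν' x‖⁻¹ • (ν x + ν' x)⟫ =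
      ‖ν x + ν' x‖ := by
    rw [← inner_add_left, real_inner_smul_right, real_inner_self_eq_norm_sq, sq,
      inv_mul_cancel_left₀ n0]
  obtain ⟨L, hL⟩ : ∃ L, L = 2 * hi + 1 := ⟨_, rfl⟩
  have L1 : 1 ≤ L := by linarith
  obtain ⟨t, ht⟩ : ∃ t, t = η / (2 * L) := ⟨_, rfl⟩
  have t0 : 0 < t := by rw [ht]; positivity
  have te : 2 * L * t = η := by rw [ht]; field_simp
  have t1 : t ≤ 1 := by nlinarith
  have a1 := semi y hu hd h1 h x hv ⟨t0.le, t1⟩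
  have a2 := semi y hu hd h1 h' x hv ⟨t0.le, t1⟩
  have a3 := h0 (m.Z t (x, ‖ν x + ν' x‖⁻¹ • (ν x + ν' x))).1
  have a4 : η ^ 2 / (4 * (2 * hi + 1)) = L * t ^ 2 := by
    rw [← hL, ← te]
    field_simp
    norm_num
  rw [← hL] at a1 a2
  rw [a4] at hs
  refine le_of_mul_le_mul_left ?_ t0
  rw [← e, ← te]
  nlinarith

end Pool.Agent.MP_3ee8cb_gt.DLS
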