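import Pool.Agent.MP_3ee8cb_gt.DLS.Mor
import Pool.Agent.MP_3ee8cb_gt.DLS.Semi
import Pool.Agent.MP_3ee8cb_gt.DZ.RBF
import Pool.Agent.MP_3ee8cb_gt.DZ.RBG
import Pool.Agent.MP_3ee8cb_gt.DZ.RGR

/-! For nearby metrics the conjugacy almost preserves feet. -/

namespace Pool.Agent.MP_3ee8cb_gt.DLS

open Set Filter Topology DN DZ Real
open CR (UT dd ng bus)
open scoped RealInnerProductSpace

theorem consts {L r : ℝ} (L1 : 1 ≤ L) (hr : 0 < r) : ∃ (N : ℕ) (η ε : ℝ), 0 < N ∧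
    (π / N) ^ 2 ≤ 1 / 2 ∧ (π / N) ^ 2 * N ≤ r ∧ 0 < η ∧ η ≤ 1 / 12 ∧
    15 * η ≤ (π / N) ^ 2 / (4 * L) ∧ 0 < ε ∧ ε ≤ 1 / 4 ∧ 4 * (4 * ε) ≤ η ^ 2 := by
  obtain ⟨N, hN⟩ := exists_nat_ge (max 6 (16 / r))
  have n1 : (6 : ℝ) ≤ N := (le_max_left _ _).trans hN
  have n2 : 16 ≤ N * r := (div_le_iff₀ hr).1 ((le_max_right _ _).trans hN)
  have n0 : (0 : ℝ) < N := by linarith
  have p1 : π ^ 2 ≤ 16 := by nlinarith [pi_le_four, pi_pos]
  have p2 : (π / N) ^ 2 ≤ 1 / 2 := by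
    rw [div_pow, div_le_iff₀ (by positivity)]
    nlinarith
  have p3 : 0 < (π / N) ^ 2 := pow_pos (div_pos pi_pos n0) 2
  have p4 : (π / N) ^ 2 / (4 * L) ≤ 1 / 2 := by
    rw [div_le_iff₀ (by positivity)]
    linarith
  have p5 : 0 < (π / N) ^ 2 / (4 * L) := by positivity
  refine ⟨N, (π / N) ^ 2 / (4 * L) / 15, ((π / N) ^ 2 / (4 * L) / 15) ^ 2 / 16,
    Nat.cast_pos.1 n0, p2, ?_, by positivity, by linarith, by linarith, by positivity,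
    by nlinarith, by linarith⟩
  have : (π / N) ^ 2 * N = π ^ 2 / N := by field_simp
  rw [this, div_le_iff₀ n0]
  linarith

variable [Dim]

/-- The stability statement. -/
def SSTAB : Prop := ∀ hi r : ℝ, 1 ≤ hi → 0 < r → ∃ ε : ℝ, 0 < ε ∧
  On2 fun g h _ C' _ _ _ _ _ _ _ Ψ _ F => ∀ m lg ν, NB h C' Ψ m lg ν → m.Up 1 → m.Dn hi →
    (∀ p, F (ng p) = ng (F p)) → (∀ x y, dd h x y ≤ (1 + ε) * dd g x y) →
    (∀ x y, dd g x y ≤ (1 + ε) * dd h x y) → (∃ D, ∀ p, dd h p.1.1 (F p).1.1 ≤ D) →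
    ∀ p, |bus h Ψ (F p) p.1.1| ≤ r

theorem sSTAB : SSTAB := by
  intro hi r h1 hr
  obtain ⟨N, η, ε, N0, θ1, θr, η0, η1, ηθ, ε0, ε1, εη⟩ :=
    consts (L := 2 * hi + 1) (by linarith) hr
  refine ⟨ε, ε0, ?_⟩
  intro g h C C' Γ Λ _ _ _ _ Φ Ψ ρ F qg qh cg ch dΓ dΛ cj m lg ν nb u1 dn fp l1 l2 ⟨D, hD⟩
  have B := sBF sMOV sLIP sGR g h C C' Γ Λ Φ Ψ ρ F qg qh cg ch dΓ dΛ cj m lg ν nb fp
  have G := sBG m lg _ _ _ B
  have hin := sHN h C' Λ Ψ qh ch m lg 1 nb.yw.ok nb.lk one_pos nb.cv nb.dist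
  obtain ⟨-, -, -, bh, -, -, mg, -⟩ := RMOV.kit qg qh cj nb.cv
  have sh : ∀ t p, sm (fam Ψ F ν) p (Φ t p).1.1 = sm (fam Ψ F ν) (Φ t p) (Φ t p).1.1 := by
    intro t p
    simp only [sm, fam, fp, cj.flow, bh.shift, bh.bshift]
    ring
  have d0 : ∀ t p, dd g (Φ t p).1.1 p.1.1 = |t| := fun t p => by
    have := mg p t 0
    rwa [qg.rp.flow.zero, sub_zero] at this
  have s := mor B η0 η1 ⟨2 * D, fun p => by
      have a1 := (B.isb p).lip p.1.1 (F p).1.1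
      have a2 := (B.isb (ng p)).lip p.1.1 (F p).1.1
      have a3 := B.foot p
      have a4 := B.foot (ng p)
      have a5 := (B.flp p).2.1
      have a6 := hD p
      rw [nb.dist] at a1 a2
      simp only [sm, fam] at a1 a2 a3 a4 a5 ⊢
      rw [a5] at a4
      linarith⟩ fun p => by
      have a1 := l1 (Φ (-2) p).1.1 p.1.1
      have a2 := l1 (Φ 2 p).1.1 p.1.1
      have a3 := l2 (Φ (-2) p).1.1 (Φ 2 p).1.1
      rw [d0, ← nb.dist] at a1 a2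
      rw [mg, ← nb.dist] at a3
      norm_num at a1 a2 a3
      obtain ⟨o, v, T, hv, hT, ho, e1, e2⟩ := mid nb.yw hin (a := (Φ (-2) p).1.1)
        (c := (Φ 2 p).1.1) (x := p.1.1) (R := 2 - 2 * ε) (δ := 4 * ε) (by linarith)
        (by linarith) (by linarith) η0.le εη (by linarith) (by linarith) (by
          refine le_of_mul_le_mul_left ?_ (show 0 < 1 + ε by linarith)
          nlinarith)
      exact ⟨o, v, T, Φ 2 p, Φ (-2) p, hv, hT, ho, e1 ▸ sh 2 p, e2 ▸ sh (-2) p⟩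
  have θ0 : 0 < π / N := div_pos pi_pos (Nat.cast_pos.2 N0)
  have up : ∀ p : UT g, bus h Ψ (F p) p.1.1 ≤ r := fun p =>
    (chain B G (x := p.1.1) (z := p.1.1) N0 θ1 (fun q hq => by
      have := grad nb.yw u1 dn h1 (B.isb q) (B.isb (ng q)) (G.opp q) _ θ0 (by nlinarith)
        ((s q).trans ηθ)
      exact hq ▸ this) p rfl).trans θr
  intro p
  have a1 : 0 ≤ bus h Ψ (F p) p.1.1 + bus h Ψ (F (ng p)) p.1.1 := G.opp p p.1.1
  have a2 : bus h Ψ (F (ng p)) p.1.1 ≤ r := up (ng p)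
  exact abs_le.2 ⟨by linarith, up p⟩

end Pool.Agent.MP_3ee8cb_gt.DLS
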